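import Pool.Agent.Helper71.BM.All

/-! # Transversals of pairwise intersecting long cycles: the asymptotic form of the conjecture -/

set_option autoImplicit false

namespace Pool.Agent.Results.MP_9384c6_co.AsymptoticTransversal

/-- For all `ε, θ > 0` and all sufficiently large `k`: if every two cycles of length at least `k`
of a finite graph `G` intersect, then there is a set `S` of at most `(1 + ε) k` vertices which meets
every cycle of length at least `k`; moreover `S` has at most `θ k` elements or it is the vertex set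
of a cycle of length at least `k`. -/
theorem result (ε θ : ℝ) (hε : 0 < ε) (hθ : 0 < θ) :
    ∃ k₀ : ℕ, ∀ k : ℕ, k₀ ≤ k → ∀ (V : Type) [Fintype V] (G : SimpleGraph V),
      (∀ (u v : V) (p : G.Walk u u) (q : G.Walk v v),
        p.IsCycle → q.IsCycle → k ≤ p.length → k ≤ q.length →
          ∃ x : V, x ∈ p.support ∧ x ∈ q.support) →
      ∃ S : Finset V, (S.card : ℝ) ≤ (1 + ε) * k ∧
        (∀ (u : V) (p : G.Walk u u), p.IsCycle → k ≤ p.length → ∃ x ∈ S, x ∈ p.support) ∧
        ((S.card : ℝ) ≤ θ * k ∨
          ∃ (u : V) (p : G.Walk u u), p.IsCycle ∧ k ≤ p.length ∧ ∀ x, x ∈ S ↔ x ∈ p.support) :=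
  Pool.Agent.Helper71.BM.all_main ε θ hε hθ

end Pool.Agent.Results.MP_9384c6_co.AsymptoticTransversal
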